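import Pool.Agent.K1H72.PCG.Defs
import Pool.Agent.R39.PCG.Four

/-!
# The four-point condition, and caterpillars
-/

set_option autoImplicit false

namespace Pool.Agent.K1H72.PCG

open Pool.Agent.R39.PCG

theorem LTree.fp {V : Type} (τ : LTree V) : FP τ.d := by
  have hW : WT τ.T τ.w (fun x y => (((τ.isTree.existsUnique_path x y).choose.edges).map
      τ.w).sum) := by
    refine ⟨τ.isTree, fun e he => (τ.pos e he).le, ?_⟩
    intro x y p hp
    have h := τ.isTree.existsUnique_path x y
    have h1 : h.choose = p := h.unique h.choose_spec.1 hp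
    rw [h1]
  exact ⟨fun _ _ => hW.symm _ _, fun _ _ _ _ => hW.four _ _ _ _ _ rfl⟩

theorem LTree.d_eq {V : Type} (τ : LTree V) (u v : V) (p : τ.T.Walk (τ.leaf u) (τ.leaf v))
    (hp : p.IsPath) : τ.d u v = (p.edges.map τ.w).sum := by
  have h := τ.isTree.existsUnique_path (τ.leaf u) (τ.leaf v)
  have h1 : h.choose = p := h.unique h.choose_spec.1 hp
  unfold LTree.d
  rw [h1]

open Classical in
/-- A graph given by a parent function is a tree. -/
theorem isTree_of_parent {W : Type} [Finite W] (G : SimpleGraph W) (r : W) (par : W → W)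
    (f : W → ℕ) (hf : ∀ x, x ≠ r → f (par x) < f x)
    (hadj : ∀ x y, G.Adj x y ↔ (x ≠ r ∧ par x = y) ∨ (y ≠ r ∧ par y = x)) : G.IsTree := by
  have hreach : ∀ n, ∀ x, f x = n → G.Reachable x r := by
    intro n
    induction n using Nat.strong_induction_on with
    | _ n ih =>
      intro x hx
      by_cases hr : x = r
      · rw [hr]
      · have h1 : G.Adj x (par x) := (hadj _ _).2 (Or.inl ⟨hr, rfl⟩)
        exact h1.reachable.trans (ih _ (hx ▸ hf x hr) _ rfl)
  have hconn : G.Connected := by
    have : Nonempty W := ⟨r⟩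
    exact ⟨fun x y => (hreach _ x rfl).trans (hreach _ y rfl).symm⟩
  rw [SimpleGraph.isTree_iff_connected_and_card]
  refine ⟨hconn, ?_⟩
  have hbij : Nat.card {x : W // x ≠ r} = Nat.card G.edgeSet := by
    apply Nat.card_congr
    refine Equiv.ofBijective (fun i => ⟨s(i.1, par i.1), ?_⟩) ⟨?_, ?_⟩
    · rw [SimpleGraph.mem_edgeSet]
      exact (hadj _ _).2 (Or.inl ⟨i.2, rfl⟩)
    · rintro ⟨i, hi⟩ ⟨j, hj⟩ hij
      have h := congrArg Subtype.val hij
      simp only [Sym2.eq_iff] at h
      rcases h with ⟨h1, _⟩ | ⟨h1, h2⟩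
      · exact Subtype.ext h1
      · exfalso
        have h3 := hf i hi
        have h4 := hf j hj
        rw [h2] at h3
        rw [← h1] at h4
        omega
    · rintro ⟨e, he⟩
      induction e using Sym2.ind with
      | _ a b =>
        rw [SimpleGraph.mem_edgeSet] at he
        rcases (hadj _ _).1 he with ⟨h1, h2⟩ | ⟨h1, h2⟩
        · refine ⟨⟨a, h1⟩, Subtype.ext ?_⟩
          simp only [h2]
        · refine ⟨⟨b, h1⟩, Subtype.ext ?_⟩
          simp only [h2]
          exact Sym2.eq_swap
  rw [← hbij]
  have h1 : Nat.card {x : W // x ≠ r} + Nat.card {x : W // x = r} = Nat.card W := by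
    have e := Equiv.sumCompl (fun x : W => x = r)
    rw [← Nat.card_congr e, Nat.card_sum, add_comm]
  have h2 : Nat.card {x : W // x = r} = 1 := by
    rw [Nat.card_eq_one_iff_unique]
    exact ⟨⟨fun x y => Subtype.ext (x.2.trans y.2.symm)⟩, ⟨⟨r, rfl⟩⟩⟩
  omega

section Caterpillar

variable {V : Type} [Finite V] (m : ℕ) (pos : V → Fin (m + 1))

/-- The caterpillar: the path `0, ..., m`, and each `v` attached at `pos v`. -/
def catT : SimpleGraph (Fin (m + 1) ⊕ V) where
  Adj x y := match x, y with
    | Sum.inl i, Sum.inl j => i.1 + 1 = j.1 ∨ j.1 + 1 = i.1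
    | Sum.inl i, Sum.inr v => pos v = i
    | Sum.inr v, Sum.inl i => pos v = i
    | Sum.inr _, Sum.inr _ => False
  symm := ⟨by
    rintro (i | u) (j | v) h
    · exact h.symm
    · exact h
    · exact h
    · exact h⟩
  loopless := ⟨by
    rintro (i | u) h
    · rcases h with h | h <;> omega
    · exact h⟩

theorem catT_isTree : (catT m pos).IsTree := by
  refine isTree_of_parent (catT m pos) (Sum.inl 0) (fun x => match x with
    | Sum.inl i => Sum.inl ⟨i.1 - 1, by omega⟩
    | Sum.inr v => Sum.inl (pos v)) (fun x => match x with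
    | Sum.inl i => i.1
    | Sum.inr v => m + 1) ?_ ?_
  · rintro (i | v) h
    · have : i.1 ≠ 0 := fun h0 => h (congrArg Sum.inl (Fin.ext h0))
      show i.1 - 1 < i.1
      omega
    · exact (pos v).2
  · rintro (i | u) (j | v)
    · show (i.1 + 1 = j.1 ∨ j.1 + 1 = i.1) ↔ _
      simp only [ne_eq, Sum.inl.injEq, Fin.ext_iff, Fin.val_zero]
      omega
    · show (pos v = i) ↔ _
      simp only [ne_eq, Sum.inl.injEq, reduceCtorEq, and_false, not_false_eq_true, true_and,
        false_or]
    · show (pos u = j) ↔ _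
      simp only [ne_eq, Sum.inl.injEq, reduceCtorEq, and_false, not_false_eq_true, true_and,
        or_false]
    · show False ↔ _
      simp

variable (c : ℝ) (ℓ : V → ℝ)

/-- The leaf part of the weight. -/
def gw : Fin (m + 1) ⊕ V → ℝ
  | Sum.inl _ => 0
  | Sum.inr v => ℓ v

/-- The weights of the caterpillar: `c` on the spine, `ℓ v` on the edge of the leaf `v`. -/
noncomputable def catw : Sym2 (Fin (m + 1) ⊕ V) → ℝ :=
  Sym2.lift ⟨fun x y => gw m ℓ x + gw m ℓ y + (if x.isLeft && y.isLeft then c else 0), by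
    intro x y
    show gw m ℓ x + gw m ℓ y + (if x.isLeft && y.isLeft then c else 0) =
      gw m ℓ y + gw m ℓ x + (if y.isLeft && x.isLeft then c else 0)
    rw [add_comm (gw m ℓ x), Bool.and_comm]⟩

theorem catw_spine (i j : Fin (m + 1)) : catw m c ℓ s(Sum.inl i, Sum.inl j) = c := by
  simp [catw, gw]

theorem catw_leaf (i : Fin (m + 1)) (v : V) : catw m c ℓ s(Sum.inl i, Sum.inr v) = ℓ v := by
  simp [catw, gw]

theorem catw_leaf' (i : Fin (m + 1)) (v : V) : catw m c ℓ s(Sum.inr v, Sum.inl i) = ℓ v := by
  simp [catw, gw]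

theorem exists_spine (n : ℕ) : ∀ (i j : Fin (m + 1)), i.1 + n = j.1 →
    ∃ p : (catT m pos).Walk (Sum.inl i) (Sum.inl j), p.IsPath ∧
      (∀ x ∈ p.support, ∃ k : Fin (m + 1), x = Sum.inl k ∧ k.1 ≤ j.1) ∧
      (p.edges.map (catw m c ℓ)).sum = c * n := by
  induction n with
  | zero =>
    intro i j hij
    have : i = j := Fin.ext (by omega)
    subst this
    refine ⟨.nil, SimpleGraph.Walk.IsPath.nil, ?_, by simp⟩
    intro x hx
    simp only [SimpleGraph.Walk.support_nil, List.mem_singleton] at hx
    exact ⟨i, hx, le_rfl⟩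
  | succ n ih =>
    intro i j hij
    obtain ⟨p, hp, hs, hw⟩ := ih i ⟨j.1 - 1, by omega⟩ (by simp only; omega)
    have hadj : (catT m pos).Adj (Sum.inl ⟨j.1 - 1, by omega⟩) (Sum.inl j) := by
      refine Or.inl ?_
      simp only
      omega
    refine ⟨p.concat hadj, ?_, ?_, ?_⟩
    · refine hp.concat ?_ hadj
      intro h
      obtain ⟨k, hk, hk'⟩ := hs _ h
      rw [Sum.inl.injEq] at hk
      simp only at hk'
      omega
    · intro x hx
      rw [SimpleGraph.Walk.support_concat, List.mem_append] at hx
      rcases hx with hx | hx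
      · obtain ⟨k, hk, hk'⟩ := hs _ hx
        simp only at hk'
        exact ⟨k, hk, by omega⟩
      · rw [List.mem_singleton] at hx
        exact ⟨j, hx, le_rfl⟩
    · rw [SimpleGraph.Walk.edges_concat, List.concat_eq_append, List.map_append, List.sum_append,
        hw]
      simp only [List.map_cons, List.map_nil, List.sum_cons, List.sum_nil, catw_spine]
      push_cast
      ring

theorem exists_leafPath (u v : V) (huv : u ≠ v) (h : (pos u).1 ≤ (pos v).1) :
    ∃ p : (catT m pos).Walk (Sum.inr u) (Sum.inr v), p.IsPath ∧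
      (p.edges.map (catw m c ℓ)).sum = ℓ u + ℓ v + c * ((pos v).1 - (pos u).1 : ℝ) := by
  obtain ⟨n, hn⟩ := Nat.exists_eq_add_of_le h
  obtain ⟨p, hp, hs, hw⟩ := exists_spine m pos c ℓ n (pos u) (pos v) hn.symm
  have h1 : (catT m pos).Adj (Sum.inl (pos v)) (Sum.inr v) := rfl
  have h2 : (catT m pos).Adj (Sum.inr u) (Sum.inl (pos u)) := rfl
  have hq : (p.concat h1).IsPath := by
    refine hp.concat ?_ h1
    intro h
    obtain ⟨k, hk, _⟩ := hs _ h
    simp at hk
  refine ⟨SimpleGraph.Walk.cons h2 (p.concat h1), ?_, ?_⟩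
  · refine hq.cons ?_
    intro h
    rw [SimpleGraph.Walk.support_concat, List.mem_append] at h
    rcases h with h | h
    · obtain ⟨k, hk, _⟩ := hs _ h
      simp at hk
    · rw [List.mem_singleton, Sum.inr.injEq] at h
      exact huv h
  · rw [SimpleGraph.Walk.edges_cons, SimpleGraph.Walk.edges_concat, List.concat_eq_append,
      List.map_cons, List.map_append, List.sum_cons, List.sum_append, hw]
    simp only [List.map_cons, List.map_nil, List.sum_cons, List.sum_nil, catw_leaf, catw_leaf']
    rw [hn]
    push_cast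
    ring

/-- The caterpillar as a tree with leaves `V`. -/
noncomputable def cat (hc : 0 < c) (hℓ : ∀ v, 0 < ℓ v) (hm : 1 ≤ m) (h0 : ∃ v, pos v = 0)
    (hl : ∃ v, pos v = Fin.last m) : LTree V where
  W := Fin (m + 1) ⊕ V
  finite := inferInstance
  T := catT m pos
  isTree := catT_isTree m pos
  w := catw m c ℓ
  pos := by
    intro e
    induction e using Sym2.ind with
    | _ x y =>
      intro h
      rw [SimpleGraph.mem_edgeSet] at h
      rcases x with i | u <;> rcases y with j | v
      · rw [catw_spine]; exact hc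
      · rw [catw_leaf]; exact hℓ v
      · rw [catw_leaf']; exact hℓ u
      · exact absurd h (by exact fun h => h)
  leaf := Sum.inr
  leaf_injective := Sum.inr_injective
  range_leaf := by
    ext x
    rw [Set.mem_ofPred_eq]
    rcases x with i | v
    · constructor
      · rintro ⟨v, hv⟩
        simp at hv
      · intro h
        exfalso
        have key : ∃ a b, a ≠ b ∧ (catT m pos).Adj (Sum.inl i) a ∧
            (catT m pos).Adj (Sum.inl i) b := by
          by_cases hi0 : i.1 = 0
          · obtain ⟨v, hv⟩ := h0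
            have e0 : i = 0 := Fin.ext hi0
            refine ⟨Sum.inr v, Sum.inl ⟨1, by omega⟩, by simp, ?_, ?_⟩
            · show pos v = i
              rw [hv, e0]
            · exact Or.inl (by simp only; omega)
          · by_cases him : i.1 = m
            · obtain ⟨v, hv⟩ := hl
              have e0 : i = Fin.last m := Fin.ext him
              refine ⟨Sum.inr v, Sum.inl ⟨i.1 - 1, by omega⟩, by simp, ?_, ?_⟩
              · show pos v = i
                rw [hv, e0]
              · exact Or.inr (by simp only; omega)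
            · refine ⟨Sum.inl ⟨i.1 - 1, by omega⟩, Sum.inl ⟨i.1 + 1, by omega⟩, ?_, ?_, ?_⟩
              · simp only [ne_eq, Sum.inl.injEq, Fin.mk.injEq]
                omega
              · exact Or.inr (by simp only; omega)
              · exact Or.inl (by simp only)
        obtain ⟨a, b, hab, ha, hb⟩ := key
        have h2 := Set.ncard_le_ncard (s := {a, b}) (t := (catT m pos).neighborSet (Sum.inl i))
          (by
            rintro z (rfl | hz)
            · exact ha
            · rw [Set.mem_singleton_iff] at hz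
              rw [hz]
              exact hb) (Set.toFinite _)
        rw [Set.ncard_pair hab] at h2
        omega
    · constructor
      · intro _
        have : (catT m pos).neighborSet (Sum.inr v) ⊆ {Sum.inl (pos v)} := by
          rintro (j | u) h
          · have h' : pos v = j := h
            rw [h']
            rfl
          · exact absurd h (fun h => h)
        exact (Set.ncard_le_ncard this (Set.toFinite _)).trans (by rw [Set.ncard_singleton])
      · intro _
        exact ⟨v, rfl⟩

theorem cat_d (hc : 0 < c) (hℓ : ∀ v, 0 < ℓ v) (hm : 1 ≤ m) (h0 : ∃ v, pos v = 0)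
    (hl : ∃ v, pos v = Fin.last m) (u v : V) (huv : u ≠ v) :
    (cat m pos c ℓ hc hℓ hm h0 hl).d u v =
      ℓ u + ℓ v + c * |((pos u).1 : ℝ) - ((pos v).1 : ℝ)| := by
  rcases le_total (pos u).1 (pos v).1 with h | h
  · obtain ⟨p, hp, hw⟩ := exists_leafPath m pos c ℓ u v huv h
    have h1 := (cat m pos c ℓ hc hℓ hm h0 hl).d_eq u v p hp
    rw [h1]
    refine hw.trans ?_
    have h2 : ((pos u).1 : ℝ) ≤ ((pos v).1 : ℝ) := by exact_mod_cast h
    rw [abs_sub_comm, abs_of_nonneg (by linarith)]
  · obtain ⟨p, hp, hw⟩ := exists_leafPath m pos c ℓ v u huv.symm h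
    have h1 := (cat m pos c ℓ hc hℓ hm h0 hl).d_eq v u p hp
    rw [(cat m pos c ℓ hc hℓ hm h0 hl).fp.symm, h1]
    refine hw.trans ?_
    have h2 : ((pos v).1 : ℝ) ≤ ((pos u).1 : ℝ) := by exact_mod_cast h
    rw [abs_of_nonneg (by linarith)]
    ring

end Caterpillar

end Pool.Agent.K1H72.PCG
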