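import Pool.Agent.K1H72.PCG.Cat

/-!
# The reduction from not-all-equal satisfiability to generalized PCG recognition

Write `M` (middle) for `dmin ≤ d ≤ dmax`, `N` (near) for `d < dmin`, `F` (far) for `dmax < d`.  The
gadgets are based on the four-point condition.

* If `u x`, `v y` are `M` and the other four pairs of `u, x, v, y` are `N` or `F` then at least one of
  the four is `F`.  So if all these vertices are `M` to `a` and `a'`, and `a a'` is not `M`, then
  `a a'` is `N`.
* If `a a'` and `c c'` are `N`, `a c'` and `a' c` are `M`, and `a c`, `a' c'` are not `M` then one of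
  `a c`, `a' c'` is `N` and the other is `F`.
* If all pairs of `a₁, a₂, a₃` and of `c₁, c₂, c₃` are `N`, `a₁ c₂`, `a₂ c₃`, `a₃ c₁` are `M` and
  `aᵢ cᵢ` is not `M` then the three pairs `aᵢ cᵢ` are neither all `N` nor all `F`.
-/

set_option autoImplicit false

namespace Pool.Agent.K1H72.PCG

open Pool.Agent.R39.PCG

/-! ### Gadgets -/

section Gadgets

variable {V : Type} {d : V → V → ℝ} (hd : FP d) {lo hi : ℝ} (hlh : lo ≤ hi)

include hd

theorem far_of_cross {u x v y : V} (h1 : lo ≤ d u x) (h2 : lo ≤ d v y) :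
    ¬ (d u v < lo ∧ d x y < lo ∧ d u y < lo ∧ d x v < lo) := by
  rintro ⟨h3, h4, h5, h6⟩
  have := hd.four u x v y
  have h7 := hd.symm x v
  have h8 := hd.symm x y
  have h9 := hd.symm v y
  rcases this with h | h <;> linarith

theorem near_of_far {s t a a' : V} (h1 : hi < d s t) (h2 : d s a ≤ hi) (h3 : d s a' ≤ hi)
    (h4 : d t a ≤ hi) (h5 : d t a' ≤ hi) : ¬ hi < d a a' := by
  intro h
  rcases hd.four s t a a' with h6 | h6 <;> linarith

/-- The near gadget. -/
theorem near_gadget {u x v y a a' : V} (h1 : lo ≤ d u x) (h2 : lo ≤ d v y)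
    (e1 : d u v < lo ∨ hi < d u v) (e2 : d x y < lo ∨ hi < d x y)
    (e3 : d u y < lo ∨ hi < d u y) (e4 : d x v < lo ∨ hi < d x v)
    (hu : d u a ≤ hi) (hx : d x a ≤ hi) (hv : d v a ≤ hi) (hy : d y a ≤ hi)
    (hu' : d u a' ≤ hi) (hx' : d x a' ≤ hi) (hv' : d v a' ≤ hi) (hy' : d y a' ≤ hi)
    (h : d a a' < lo ∨ hi < d a a') : d a a' < lo := by
  rcases h with h | h
  · exact h
  · exfalso
    rcases e1 with e1 | e1
    · rcases e2 with e2 | e2
      · rcases e3 with e3 | e3
        · rcases e4 with e4 | e4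
          · exact far_of_cross hd h1 h2 ⟨e1, e2, e3, e4⟩
          · exact near_of_far hd e4 hx hx' hv hv' h
        · exact near_of_far hd e3 hu hu' hy hy' h
      · exact near_of_far hd e2 hx hx' hy hy' h
    · exact near_of_far hd e1 hu hu' hv hv' h

include hlh

/-- The exclusive-or gadget. -/
theorem xor_gadget {a a' c c' : V} (h1 : d a a' < lo) (h2 : d c c' < lo)
    (h3 : lo ≤ d a c') (h4 : d a c' ≤ hi) (h5 : lo ≤ d a' c) (h6 : d a' c ≤ hi)
    (e1 : d a c < lo ∨ hi < d a c) (e2 : d a' c' < lo ∨ hi < d a' c') :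
    (hi < d a c ↔ ¬ hi < d a' c') := by
  constructor
  · intro h h'
    have h7 := hd.symm c a'
    rcases hd.four a c a' c' with h8 | h8 <;> linarith
  · intro h
    have h' : d a' c' < lo := by
      rcases e2 with e2 | e2
      · exact e2
      · exact absurd e2 h
    rcases e1 with e1 | e1
    · exfalso
      have h7 := hd.symm c' c
      have h8 := hd.symm c' a'
      rcases hd.four a c' a' c with h9 | h9 <;> linarith
    · exact e1

/-- The not-all-equal gadget. -/
theorem nae_gadget {a₁ a₂ a₃ c₁ c₂ c₃ : V} (h12 : d a₁ a₂ < lo) (h23 : d a₂ a₃ < lo)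
    (k12 : d c₁ c₂ < lo) (k13 : d c₁ c₃ < lo)
    (m1 : lo ≤ d a₁ c₂) (m1' : d a₁ c₂ ≤ hi) (m2 : lo ≤ d a₂ c₃) (m2' : d a₂ c₃ ≤ hi)
    (m3 : lo ≤ d a₃ c₁) (m3' : d a₃ c₁ ≤ hi)
    (e1 : d a₁ c₁ < lo ∨ hi < d a₁ c₁) (e2 : d a₂ c₂ < lo ∨ hi < d a₂ c₂)
    (e3 : d a₃ c₃ < lo ∨ hi < d a₃ c₃) :
    ¬ ((hi < d a₁ c₁ ∧ hi < d a₂ c₂ ∧ hi < d a₃ c₃) ∨
      (¬ hi < d a₁ c₁ ∧ ¬ hi < d a₂ c₂ ∧ ¬ hi < d a₃ c₃)) := by
  rintro (⟨f1, f2, f3⟩ | ⟨f1, f2, f3⟩)
  · have s1 := hd.symm c₁ a₂
    have s2 := hd.symm c₁ a₃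
    have h1 : hi < d a₂ c₁ := by
      rcases hd.four a₁ c₁ a₂ c₂ with h | h <;> linarith
    rcases hd.four a₂ c₁ a₃ c₃ with h | h <;> linarith
  · have g1 := e1.resolve_right f1
    have g2 := e2.resolve_right f2
    have g3 := e3.resolve_right f3
    have s1 := hd.symm c₂ c₁
    have s2 := hd.symm c₂ a₂
    have s3 := hd.symm c₃ c₁
    have s4 := hd.symm c₃ a₃
    have h1 : d a₂ c₁ < lo := by
      rcases hd.four a₁ c₂ a₂ c₁ with h | h <;> linarith
    rcases hd.four a₂ c₃ a₃ c₁ with h | h <;> linarith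

end Gadgets

/-! ### The graph -/

/-- The vertices; `m` is the number of clauses, the Boolean is the side. -/
inductive PV (m : ℕ) : Type
  | h (s : Bool) (j : Fin 4) : PV m
  | b (s : Bool) (v : Fin (3 * m)) : PV m
  | o (s : Bool) (q : Fin (3 * m)) : PV m
  deriving DecidableEq, Fintype

variable {m : ℕ}

/-- The edges of `G`, in one direction; `var q` is the variable of the occurrence `q`. -/
def eD (var : ℕ → ℕ) : PV m → PV m → Prop
  | PV.h s j, PV.h s' j' => s = s' ∧ j.1 ≠ j'.1 ∧ j.1 / 2 = j'.1 / 2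
  | PV.h s _, PV.b s' _ => s = s'
  | PV.h s _, PV.o s' _ => s = s'
  | PV.o s q, PV.b s' v => s ≠ s' ∧ var q.1 = v.1
  | PV.o s q, PV.o s' q' => s = false ∧ s' = true ∧ q.1 / 3 = q'.1 / 3 ∧
      q'.1 % 3 = (q.1 + 1) % 3
  | _, _ => False

/-- The pairs of `S`, in one direction. -/
def sD : PV m → PV m → Prop
  | PV.h s j, PV.h s' j' => s = s' ∧ j.1 / 2 ≠ j'.1 / 2
  | PV.b s v, PV.b s' v' => (s = s' ∧ v.1 ≠ v'.1) ∨ (s ≠ s' ∧ v.1 = v'.1)
  | PV.b s _, PV.o s' _ => s = s'
  | PV.o s q, PV.o s' q' => (s = s' ∧ q.1 ≠ q'.1) ∨ (s ≠ s' ∧ q.1 = q'.1)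
  | _, _ => False

/-- The graph of the reduction. -/
def EG (var : ℕ → ℕ) : SimpleGraph (PV m) where
  Adj x y := eD var x y ∨ eD var y x
  symm := ⟨fun _ _ h => h.symm⟩
  loopless := ⟨fun x h => by
    cases x with
    | h s j => simp [eD] at h
    | b s v => simp [eD] at h
    | o s q =>
      rcases h with h | h <;> exact absurd (h.1.symm.trans h.2.1) (by decide)⟩

/-- The set of forbidden pairs of the reduction. -/
def SG (m : ℕ) : SimpleGraph (PV m) where
  Adj x y := sD x y ∨ sD y x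
  symm := ⟨fun _ _ h => h.symm⟩
  loopless := ⟨fun x h => by
    cases x <;> simp [sD] at h⟩

/-! ### Soundness -/

theorem sound (var : ℕ → ℕ) (hvar : ∀ q, q < 3 * m → var q < 3 * m)
    (h : GenPCG (EG (m := m) var) (SG m)) :
    ∃ τ : ℕ → Bool, ∀ k < m,
      ¬ (τ (var (3 * k)) = τ (var (3 * k + 1)) ∧ τ (var (3 * k + 1)) = τ (var (3 * k + 2))) := by
  classical
  obtain ⟨G', ⟨t, lo, hi, -, hlh, hG⟩, hE, hS⟩ := h
  have hd := t.fp
  set d := t.d with hdd
  have hM : ∀ x y, (EG (m := m) var).Adj x y → lo ≤ d x y ∧ d x y ≤ hi := fun x y hxy =>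
    (hG x y ((EG (m := m) var).ne_of_adj hxy)).1 (hE hxy)
  have hN : ∀ x y, (SG m).Adj x y → d x y < lo ∨ hi < d x y := by
    intro x y hxy
    by_contra hc
    rw [not_or, not_lt, not_lt] at hc
    have h1 : G'.Adj x y := (hG x y ((SG m).ne_of_adj hxy)).2 ⟨hc.1, hc.2⟩
    exact (disjoint_iff_inf_le.1 hS) (show (G' ⊓ SG m).Adj x y from ⟨h1, hxy⟩)
  -- near pairs
  have near : ∀ (s : Bool) (x y : PV m),
      (∀ j, (EG (m := m) var).Adj (PV.h s j) x) → (∀ j, (EG (m := m) var).Adj (PV.h s j) y) →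
      (SG m).Adj x y → d x y < lo := by
    intro s x y hx hy hxy
    have a0 : (EG (m := m) var).Adj (PV.h s 0) (PV.h s 1) := Or.inl ⟨rfl, by decide, by decide⟩
    have a1 : (EG (m := m) var).Adj (PV.h s 2) (PV.h s 3) := Or.inl ⟨rfl, by decide, by decide⟩
    have b0 : (SG m).Adj (PV.h s 0) (PV.h s 2) := Or.inl ⟨rfl, by decide⟩
    have b1 : (SG m).Adj (PV.h s 1) (PV.h s 3) := Or.inl ⟨rfl, by decide⟩
    have b2 : (SG m).Adj (PV.h s 0) (PV.h s 3) := Or.inl ⟨rfl, by decide⟩
    have b3 : (SG m).Adj (PV.h s 1) (PV.h s 2) := Or.inl ⟨rfl, by decide⟩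
    exact near_gadget hd (hM _ _ a0).1 (hM _ _ a1).1 (hN _ _ b0) (hN _ _ b1) (hN _ _ b2)
      (hN _ _ b3) (hM _ _ (hx 0)).2 (hM _ _ (hx 1)).2 (hM _ _ (hx 2)).2 (hM _ _ (hx 3)).2
      (hM _ _ (hy 0)).2 (hM _ _ (hy 1)).2 (hM _ _ (hy 2)).2 (hM _ _ (hy 3)).2 (hN _ _ hxy)
  have hjb : ∀ s j v, (EG (m := m) var).Adj (PV.h s j) (PV.b s v) := fun s j v => Or.inl rfl
  have hjo : ∀ s j q, (EG (m := m) var).Adj (PV.h s j) (PV.o s q) := fun s j q => Or.inl rfl
  -- the assignment
  refine ⟨fun v => if hv : v < 3 * m then decide (hi < d (PV.b false ⟨v, hv⟩) (PV.b true ⟨v, hv⟩))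
    else false, ?_⟩
  have key : ∀ q (hq : q < 3 * m), (hi < d (PV.o false ⟨q, hq⟩) (PV.o true ⟨q, hq⟩) ↔
      ¬ hi < d (PV.b false ⟨var q, hvar q hq⟩) (PV.b true ⟨var q, hvar q hq⟩)) := by
    intro q hq
    refine xor_gadget hd hlh ?_ ?_ (hM _ _ ?_).1 (hM _ _ ?_).2 (hM _ _ ?_).1 (hM _ _ ?_).2
      (hN _ _ ?_) (hN _ _ ?_)
    · exact near false _ _ (fun j => hjo _ _ _) (fun j => hjb _ _ _) (Or.inr rfl)
    · exact near true _ _ (fun j => hjo _ _ _) (fun j => hjb _ _ _) (Or.inr rfl)
    · exact Or.inl ⟨by decide, rfl⟩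
    · exact Or.inl ⟨by decide, rfl⟩
    · exact Or.inr ⟨by decide, rfl⟩
    · exact Or.inr ⟨by decide, rfl⟩
    · exact Or.inl (Or.inr ⟨by decide, rfl⟩)
    · exact Or.inl (Or.inr ⟨by decide, rfl⟩)
  intro k hk
  have q0 : 3 * k < 3 * m := by omega
  have q1 : 3 * k + 1 < 3 * m := by omega
  have q2 : 3 * k + 2 < 3 * m := by omega
  have hno : ∀ (s : Bool) (q q' : Fin (3 * m)), q.1 ≠ q'.1 → d (PV.o s q) (PV.o s q') < lo :=
    fun s q q' hqq => near s _ _ (fun j => hjo _ _ _) (fun j => hjo _ _ _)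
      (Or.inl (Or.inl ⟨rfl, hqq⟩))
  have hadj : ∀ (q q' : Fin (3 * m)), q.1 / 3 = q'.1 / 3 → q'.1 % 3 = (q.1 + 1) % 3 →
      (EG (m := m) var).Adj (PV.o false q) (PV.o true q') := fun q q' e1 e2 =>
    Or.inl ⟨rfl, rfl, e1, e2⟩
  have m1 := hM _ _ (hadj ⟨3 * k, q0⟩ ⟨3 * k + 1, q1⟩ (by show 3 * k / 3 = (3 * k + 1) / 3; omega)
    rfl)
  have m2 := hM _ _ (hadj ⟨3 * k + 1, q1⟩ ⟨3 * k + 2, q2⟩
    (by show (3 * k + 1) / 3 = (3 * k + 2) / 3; omega) rfl)
  have m3 := hM _ _ (hadj ⟨3 * k + 2, q2⟩ ⟨3 * k, q0⟩ (by show (3 * k + 2) / 3 = 3 * k / 3; omega)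
    (by show 3 * k % 3 = (3 * k + 2 + 1) % 3; omega))
  have nae := nae_gadget hd hlh (a₁ := PV.o false ⟨3 * k, q0⟩) (a₂ := PV.o false ⟨3 * k + 1, q1⟩)
    (a₃ := PV.o false ⟨3 * k + 2, q2⟩) (c₁ := PV.o true ⟨3 * k, q0⟩)
    (c₂ := PV.o true ⟨3 * k + 1, q1⟩) (c₃ := PV.o true ⟨3 * k + 2, q2⟩)
    (hno _ _ _ (by simp)) (hno _ _ _ (by simp)) (hno _ _ _ (by simp)) (hno _ _ _ (by simp))
    m1.1 m1.2 m2.1 m2.2 m3.1 m3.2
    (hN _ _ (Or.inl (Or.inr ⟨by decide, rfl⟩))) (hN _ _ (Or.inl (Or.inr ⟨by decide, rfl⟩)))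
    (hN _ _ (Or.inl (Or.inr ⟨by decide, rfl⟩)))
  rw [key _ q0, key _ q1, key _ q2] at nae
  simp only [dif_pos (hvar _ q0), dif_pos (hvar _ q1), dif_pos (hvar _ q2)]
  rw [decide_eq_decide, decide_eq_decide]
  tauto

/-! ### Completeness -/

/-- The sign. -/
def sg (b : Bool) : ℤ := if b then 1 else -1

/-- The positions of the two ends of a pair in a clause; the arguments are the states of the pair,
of the next one and of the third one. -/
def vals (b b' b'' : Bool) : ℤ × ℤ :=
  if b ≠ b' ∧ b ≠ b'' then (-6 * sg b', 5 * sg b')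
  else if b = b' then (9 * sg b, -2 * sg b)
  else (10 * sg b, -sg b)

theorem vals_spec : ∀ b b' b'' : Bool, ¬ (b = b' ∧ b' = b'') →
    (-10 ≤ (vals b b' b'').1 ∧ (vals b b' b'').1 ≤ 10 ∧
    -10 ≤ (vals b b' b'').2 ∧ (vals b b' b'').2 ≤ 10) ∧
    ((vals b b' b'').1 - (vals b b' b'').2 < -10 ∨ 10 < (vals b b' b'').1 - (vals b b' b'').2) ∧
    (-10 ≤ (vals b b' b'').1 - (vals b' b'' b).2 ∧ (vals b b' b'').1 - (vals b' b'' b).2 ≤ 10) ∧
    (-10 ≤ (vals b b' b'').1 - 6 * sg b ∧ (vals b b' b'').1 - 6 * sg b ≤ 10) ∧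
    (-10 ≤ - 6 * sg b - (vals b b' b'').2 ∧ - 6 * sg b - (vals b b' b'').2 ≤ 10) := by
  decide

/-- The next position in a clause. -/
def nx (q : ℕ) : ℕ := 3 * (q / 3) + (q + 1) % 3

/-- The two values of an occurrence. -/
def XY (var : ℕ → ℕ) (τ : ℕ → Bool) (q : ℕ) : ℤ × ℤ :=
  vals (!τ (var q)) (!τ (var (nx q))) (!τ (var (nx (nx q))))

/-- The position on the spine. -/
def pos : PV m → Fin 5
  | PV.h false j => if j.1 < 2 then 0 else 2
  | PV.h true j => if j.1 < 2 then 2 else 4
  | PV.b false _ => 1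
  | PV.b true _ => 3
  | PV.o false _ => 1
  | PV.o true _ => 3

/-- The lengths of the edges at the leaves. -/
def len (var : ℕ → ℕ) (τ : ℕ → Bool) : PV m → ℤ
  | PV.h _ _ => 40
  | PV.b _ v => 20 + 6 * sg (τ v.1)
  | PV.o false q => 20 + (XY var τ q.1).1
  | PV.o true q => 20 - (XY var τ q.1).2

theorem nx_nx_nx {q : ℕ} : nx (nx (nx q)) = q := by
  unfold nx; omega

theorem nx_eq {q q' : ℕ} (h1 : q / 3 = q' / 3) (h2 : q' % 3 = (q + 1) % 3) : nx q = q' := by
  unfold nx; omega

theorem complete (var : ℕ → ℕ) (τ : ℕ → Bool)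
    (hτ : ∀ k < m, ¬ (τ (var (3 * k)) = τ (var (3 * k + 1)) ∧
      τ (var (3 * k + 1)) = τ (var (3 * k + 2)))) : GenPCG (EG (m := m) var) (SG m) := by
  -- the bits of a clause
  have hb : ∀ q < 3 * m, ¬ ((!τ (var q)) = (!τ (var (nx q))) ∧
      (!τ (var (nx q))) = (!τ (var (nx (nx q))))) := by
    intro q hq
    have h1 := hτ (q / 3) (by omega)
    have h2 : q % 3 = 0 ∨ q % 3 = 1 ∨ q % 3 = 2 := by omega
    rcases h2 with h2 | h2 | h2
    · have e1 : q = 3 * (q / 3) := by omega
      have e2 : nx q = 3 * (q / 3) + 1 := by unfold nx; omega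
      have e3 : nx (nx q) = 3 * (q / 3) + 2 := by unfold nx; omega
      rw [e3, e2]
      rw [← e1] at h1
      rw [← e1]
      generalize τ (var q) = x at *
      generalize τ (var (q + 1)) = y at *
      generalize τ (var (q + 2)) = z at *
      revert h1
      cases x <;> cases y <;> cases z <;> decide
    · have e1 : q = 3 * (q / 3) + 1 := by omega
      have e2 : nx q = 3 * (q / 3) + 2 := by unfold nx; omega
      have e3 : nx (nx q) = 3 * (q / 3) := by unfold nx; omega
      rw [e3, e2]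
      rw [← e1] at h1
      generalize τ (var q) = x at *
      generalize τ (var (3 * (q / 3) + 2)) = y at *
      generalize τ (var (3 * (q / 3))) = z at *
      revert h1
      cases x <;> cases y <;> cases z <;> decide
    · have e1 : q = 3 * (q / 3) + 2 := by omega
      have e2 : nx q = 3 * (q / 3) := by unfold nx; omega
      have e3 : nx (nx q) = 3 * (q / 3) + 1 := by unfold nx; omega
      rw [e3, e2]
      rw [← e1] at h1
      generalize τ (var q) = x at *
      generalize τ (var (3 * (q / 3) + 1)) = y at *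
      generalize τ (var (3 * (q / 3))) = z at *
      revert h1
      cases x <;> cases y <;> cases z <;> decide
  have hsg : ∀ b : Bool, sg b = 1 ∨ sg b = -1 := by decide
  have hsn : ∀ b : Bool, sg (!b) = - sg b := by decide
  have hpos : ∀ x : PV m, 0 < len var τ x := by
    intro x
    cases x with
    | h s j => simp [len]
    | b s v =>
      simp only [len]
      rcases hsg (τ v.1) with h | h <;> rw [h] <;> norm_num
    | o s q =>
      have h1 := (vals_spec _ _ _ (hb q.1 q.2)).1
      cases s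
      · simp only [len, XY]; omega
      · simp only [len, XY]; omega
  let D : PV m → PV m → ℤ := fun x y => len var τ x + len var τ y +
    20 * |((pos x).1 : ℤ) - ((pos y).1 : ℤ)|
  have hDs : ∀ x y, D x y = D y x := by
    intro x y
    simp only [D]
    rw [abs_sub_comm, add_comm (len var τ x)]
  -- the distances
  let t : LTree (PV m) := cat 4 pos 20 (fun x => (len var τ x : ℝ)) (by norm_num)
    (fun x => by exact_mod_cast hpos x) (by norm_num) ⟨PV.h false 0, rfl⟩ ⟨PV.h true 3, rfl⟩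
  have ht : ∀ x y, x ≠ y → t.d x y = (D x y : ℝ) := by
    intro x y hxy
    have := cat_d 4 pos 20 (fun x => (len var τ x : ℝ)) (by norm_num)
      (fun x => by exact_mod_cast hpos x) (by norm_num) ⟨PV.h false 0, rfl⟩ ⟨PV.h true 3, rfl⟩
      x y hxy
    rw [this]
    simp only [D]
    push_cast
    ring
  have hE : ∀ x y, eD var x y → 70 ≤ D x y ∧ D x y ≤ 90 := by
    intro x y h
    cases x with
    | h s j =>
      cases y with
      | h s' j' =>
        obtain ⟨rfl, h1, h2⟩ := h
        simp only [D, len]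
        have e : pos (m := m) (PV.h s j) = pos (m := m) (PV.h s j') := by
          cases s <;> simp only [pos] <;> split_ifs <;> first | rfl | omega
        rw [e]
        simp
      | b s' v =>
        have h' : s = s' := h
        subst h'
        simp only [D, len]
        have h3 := hsg (τ v.1)
        have e : |((pos (m := m) (PV.h s j)).1 : ℤ) - ((pos (m := m) (PV.b s v)).1 : ℤ)| = 1 := by
          cases s <;> simp only [pos] <;> split_ifs <;> decide
        rw [e]
        omega
      | o s' q =>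
        have h' : s = s' := h
        subst h'
        have h1 := (vals_spec _ _ _ (hb q.1 q.2)).1
        have e : |((pos (m := m) (PV.h s j)).1 : ℤ) - ((pos (m := m) (PV.o s q)).1 : ℤ)| = 1 := by
          cases s <;> simp only [pos] <;> split_ifs <;> decide
        cases s
        · simp only [D, len, XY]
          rw [e]
          omega
        · simp only [D, len, XY]
          rw [e]
          omega
    | b s v => exact absurd h (by cases y <;> exact fun h => h)
    | o s q =>
      obtain ⟨-, -, -, h2, h3⟩ := vals_spec _ _ _ (hb q.1 q.2)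
      cases y with
      | h s' j' => exact absurd h (fun h => h)
      | b s' v =>
        obtain ⟨h4, h5⟩ := h
        rw [hsn] at h2 h3
        rw [h5] at h2 h3
        cases s <;> cases s'
        · exact absurd rfl h4
        · have e : |((pos (m := m) (PV.o false q)).1 : ℤ) - ((pos (m := m) (PV.b true v)).1 : ℤ)|
              = 2 := by simp only [pos]; decide
          simp only [D, len, XY]
          rw [e, h5]
          omega
        · have e : |((pos (m := m) (PV.o true q)).1 : ℤ) - ((pos (m := m) (PV.b false v)).1 : ℤ)|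
              = 2 := by simp only [pos]; decide
          simp only [D, len, XY]
          rw [e, h5]
          omega
        · exact absurd rfl h4
      | o s' q' =>
        obtain ⟨rfl, rfl, h5, h6⟩ := h
        have e0 := nx_eq h5 h6
        have e1 : nx (nx (nx q.1)) = q.1 := nx_nx_nx
        have e : |((pos (m := m) (PV.o false q)).1 : ℤ) - ((pos (m := m) (PV.o true q')).1 : ℤ)|
              = 2 := by simp only [pos]; decide
        obtain ⟨-, -, h7, -, -⟩ := vals_spec _ _ _ (hb q.1 q.2)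
        simp only [D, len, XY]
        rw [e]
        rw [← e0, e1]
        omega
  have hS : ∀ x y, sD x y → D x y < 70 ∨ 90 < D x y := by
    intro x y h
    cases x with
    | h s j =>
      cases y with
      | h s' j' =>
        obtain ⟨rfl, h2⟩ := h
        have e : |((pos (m := m) (PV.h s j)).1 : ℤ) - ((pos (m := m) (PV.h s j')).1 : ℤ)| = 2 := by
          cases s <;> simp only [pos] <;> split_ifs <;> first | decide | omega
        simp only [D, len]
        rw [e]
        norm_num
      | b s' v => exact absurd h (fun h => h)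
      | o s' q => exact absurd h (fun h => h)
    | b s v =>
      have h3 := hsg (τ v.1)
      cases y with
      | h s' j' => exact absurd h (fun h => h)
      | b s' v' =>
        have h4 := hsg (τ v'.1)
        rcases h with ⟨rfl, h1⟩ | ⟨h1, h2⟩
        · have e : |((pos (m := m) (PV.b s v)).1 : ℤ) - ((pos (m := m) (PV.b s v')).1 : ℤ)|
              = 0 := by cases s <;> simp only [pos] <;> decide
          simp only [D, len]
          rw [e]
          left
          omega
        · have e : |((pos (m := m) (PV.b s v)).1 : ℤ) - ((pos (m := m) (PV.b s' v')).1 : ℤ)|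
              = 2 := by
            cases s <;> cases s' <;> simp only [pos] <;> first | decide | exact absurd rfl h1
          simp only [D, len]
          rw [e, h2]
          rcases h4 with h4 | h4 <;> rw [h4] <;> norm_num
      | o s' q =>
        have h' : s = s' := h
        subst h'
        have h1 := (vals_spec _ _ _ (hb q.1 q.2)).1
        have e : |((pos (m := m) (PV.b s v)).1 : ℤ) - ((pos (m := m) (PV.o s q)).1 : ℤ)|
              = 0 := by cases s <;> simp only [pos] <;> decide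
        left
        cases s
        · simp only [D, len, XY]
          rw [e]
          omega
        · simp only [D, len, XY]
          rw [e]
          omega
    | o s q =>
      obtain ⟨h1, h8, -⟩ := vals_spec _ _ _ (hb q.1 q.2)
      cases y with
      | h s' j' => exact absurd h (fun h => h)
      | b s' v => exact absurd h (fun h => h)
      | o s' q' =>
        have h1' := (vals_spec _ _ _ (hb q'.1 q'.2)).1
        rcases h with ⟨rfl, h2⟩ | ⟨h2, h3⟩
        · have e : |((pos (m := m) (PV.o s q)).1 : ℤ) - ((pos (m := m) (PV.o s q')).1 : ℤ)|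
              = 0 := by cases s <;> simp only [pos] <;> decide
          left
          cases s
          · simp only [D, len, XY]
            rw [e]
            omega
          · simp only [D, len, XY]
            rw [e]
            omega
        · have e : |((pos (m := m) (PV.o s q)).1 : ℤ) - ((pos (m := m) (PV.o s' q')).1 : ℤ)|
              = 2 := by
            cases s <;> cases s' <;> simp only [pos] <;> first | decide | exact absurd rfl h2
          cases s <;> cases s'
          · exact absurd rfl h2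
          · simp only [D, len, XY]
            rw [e, ← h3]
            omega
          · simp only [D, len, XY]
            rw [e, ← h3]
            omega
          · exact absurd rfl h2
  refine ⟨{ Adj := fun x y => x ≠ y ∧ 70 ≤ D x y ∧ D x y ≤ 90
            symm := ⟨fun x y h => ⟨h.1.symm, by rw [hDs]; exact h.2⟩⟩
            loopless := ⟨fun x h => h.1 rfl⟩ }, ⟨t, 70, 90, by norm_num, by norm_num, ?_⟩, ?_, ?_⟩
  · intro x y hxy
    rw [ht x y hxy]
    constructor
    · rintro ⟨-, h1, h2⟩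
      exact ⟨by exact_mod_cast h1, by exact_mod_cast h2⟩
    · rintro ⟨h1, h2⟩
      exact ⟨hxy, by exact_mod_cast h1, by exact_mod_cast h2⟩
  · intro x y h
    refine ⟨(EG (m := m) var).ne_of_adj h, ?_⟩
    rcases h with h | h
    · exact hE x y h
    · rw [hDs]; exact hE y x h
  · rw [disjoint_iff_inf_le]
    rintro x y ⟨⟨h1, h2, h3⟩, h4⟩
    rcases h4 with h4 | h4
    · rcases hS x y h4 with h5 | h5 <;> omega
    · rw [hDs] at h2 h3
      rcases hS y x h4 with h5 | h5 <;> omega

end Pool.Agent.K1H72.PCG
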