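import Mathlib

/-!
# Pairwise compatibility graphs
-/

set_option autoImplicit false

namespace Pool.Agent.K1H72.PCG

/-- A finite tree with positive real edge weights whose leaves are identified with the elements of
`V` by the bijection `leaf`.  A leaf is a vertex of degree at most one, so that the vertex of the
tree with one vertex counts as a leaf. -/
structure LTree (V : Type) where
  /-- the vertices of the tree -/
  W : Type
  finite : Finite W
  /-- the tree -/
  T : SimpleGraph W
  isTree : T.IsTree
  /-- the edge weights -/
  w : Sym2 W → ℝ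
  pos : ∀ e ∈ T.edgeSet, 0 < w e
  /-- the leaf belonging to an element of `V` -/
  leaf : V → W
  leaf_injective : Function.Injective leaf
  range_leaf : Set.range leaf = {x | (T.neighborSet x).ncard ≤ 1}

/-- `d u v`: the total weight of the unique path between the leaves `u` and `v`. -/
noncomputable def LTree.d {V : Type} (τ : LTree V) (u v : V) : ℝ :=
  (((τ.isTree.existsUnique_path (τ.leaf u) (τ.leaf v)).choose.edges).map τ.w).sum

/-- `G` is a pairwise compatibility graph: for some tree and some `0 ≤ dmin ≤ dmax`, different
vertices `u`, `v` are adjacent if and only if `dmin ≤ d u v ≤ dmax`. -/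
def IsPCG {V : Type} (G : SimpleGraph V) : Prop :=
  ∃ (τ : LTree V) (dmin dmax : ℝ), 0 ≤ dmin ∧ dmin ≤ dmax ∧
    ∀ u v, u ≠ v → (G.Adj u v ↔ dmin ≤ τ.d u v ∧ τ.d u v ≤ dmax)

/-- Some pairwise compatibility graph contains all edges of `G` and no pair of `S`. -/
def GenPCG {V : Type} (G S : SimpleGraph V) : Prop :=
  ∃ G' : SimpleGraph V, IsPCG G' ∧ G ≤ G' ∧ Disjoint G' S

end Pool.Agent.K1H72.PCG
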