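import Pool.Agent.K1H72.PCG.Core
import Pool.Agent.R544.Nae3
import Pool.Agent.R892.Ord.Mem

/-!
# Generalized recognition of pairwise compatibility graphs is NP-hard: the reduction is polynomial
-/

set_option autoImplicit false

namespace Pool.Agent.NPC.K1H72PCG

open Pool.Agent.K1H72.PCG Pool.Agent.NPC Pool.Agent.NPC.R671 Pool.Agent.NPC.R892 Pool.Agent.R544

/-- Generalized PCG recognition.  An instance consists of the adjacency matrices of a graph `G`
and of a set `S` of non-edges of `G` (as a graph), both on the vertices `0, ..., n - 1`.  The question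
is whether there is a pairwise compatibility graph on these vertices which contains all edges of
`G` and no pair of `S`. -/
def GenPCGProblem (I : List (List Bool) × List (List Bool)) : Prop :=
  ∃ (n : ℕ) (G S : SimpleGraph (Fin n)),
    adjMatrix G = I.1 ∧ adjMatrix S = I.2 ∧ S ≤ Gᶜ ∧ GenPCG G S

/-- Labels of vertices: kind, side, number. -/
abbrev Lb : Type := ℕ × ℕ × ℕ

/-- The variable of an occurrence. -/
def varOf (φ : N3) (q : ℕ) : ℕ :=
  if q % 3 = 0 then (tr φ (q / 3)).1 else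
    if q % 3 = 1 then (tr φ (q / 3)).2.1 else (tr φ (q / 3)).2.2

/-- Edges between labels, in one direction. -/
def eB (φ : N3) (a b : Lb) : Bool :=
  (decide (a.1 = 0) && (decide (b.1 = 0) && (decide (a.2.1 = b.2.1) &&
    (!decide (a.2.2 = b.2.2) && decide (a.2.2 / 2 = b.2.2 / 2))))) ||
  ((decide (a.1 = 0) && ((decide (b.1 = 1) || decide (b.1 = 2)) && decide (a.2.1 = b.2.1))) ||
  ((decide (a.1 = 2) && (decide (b.1 = 1) && (!decide (a.2.1 = b.2.1) &&
    decide (varOf φ a.2.2 = b.2.2)))) ||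
  (decide (a.1 = 2) && (decide (b.1 = 2) && (decide (a.2.1 = 0) && (decide (b.2.1 = 1) &&
    (decide (a.2.2 / 3 = b.2.2 / 3) && decide (b.2.2 % 3 = (a.2.2 + 1) % 3))))))))

/-- Forbidden pairs of labels, in one direction. -/
def sB (a b : Lb) : Bool :=
  (decide (a.1 = 0) && (decide (b.1 = 0) && (decide (a.2.1 = b.2.1) &&
    !decide (a.2.2 / 2 = b.2.2 / 2)))) ||
  ((decide (a.1 = 1) && (decide (b.1 = 2) && decide (a.2.1 = b.2.1))) ||
  ((decide (a.1 = b.1) && (decide (a.1 = 1) || decide (a.1 = 2))) &&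
    ((decide (a.2.1 = b.2.1) && !decide (a.2.2 = b.2.2)) ||
      (!decide (a.2.1 = b.2.1) && decide (a.2.2 = b.2.2)))))

/-- Edges between labels. -/
def eL (φ : N3) (a b : Lb) : Bool := eB φ a b || eB φ b a

/-- Forbidden pairs of labels. -/
def sL (a b : Lb) : Bool := sB a b || sB b a

theorem eL_symm (φ : N3) (a b : Lb) : eL φ a b = eL φ b a := by
  unfold eL; rw [Bool.or_comm]

theorem sL_symm (a b : Lb) : sL a b = sL b a := by
  unfold sL; rw [Bool.or_comm]

theorem eB_iff (φ : N3) (a b : Lb) : eB φ a b = true ↔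
    (a.1 = 0 ∧ b.1 = 0 ∧ a.2.1 = b.2.1 ∧ a.2.2 ≠ b.2.2 ∧ a.2.2 / 2 = b.2.2 / 2) ∨
    (a.1 = 0 ∧ (b.1 = 1 ∨ b.1 = 2) ∧ a.2.1 = b.2.1) ∨
    (a.1 = 2 ∧ b.1 = 1 ∧ a.2.1 ≠ b.2.1 ∧ varOf φ a.2.2 = b.2.2) ∨
    (a.1 = 2 ∧ b.1 = 2 ∧ a.2.1 = 0 ∧ b.2.1 = 1 ∧ a.2.2 / 3 = b.2.2 / 3 ∧
      b.2.2 % 3 = (a.2.2 + 1) % 3) := by
  unfold eB
  simp only [Bool.or_eq_true, Bool.and_eq_true, decide_eq_true_eq,
    Bool.not_eq_true', decide_eq_false_iff_not, ne_eq]

theorem sB_iff (a b : Lb) : sB a b = true ↔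
    (a.1 = 0 ∧ b.1 = 0 ∧ a.2.1 = b.2.1 ∧ a.2.2 / 2 ≠ b.2.2 / 2) ∨
    (a.1 = 1 ∧ b.1 = 2 ∧ a.2.1 = b.2.1) ∨
    ((a.1 = b.1 ∧ (a.1 = 1 ∨ a.1 = 2)) ∧ ((a.2.1 = b.2.1 ∧ a.2.2 ≠ b.2.2) ∨
      (a.2.1 ≠ b.2.1 ∧ a.2.2 = b.2.2))) := by
  unfold sB
  simp only [Bool.or_eq_true, Bool.and_eq_true, decide_eq_true_eq,
    Bool.not_eq_true', decide_eq_false_iff_not, ne_eq]

theorem eL_irrefl (φ : N3) (a : Lb) : eL φ a a = false := by
  rw [Bool.eq_false_iff]
  intro h
  unfold eL at h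
  rw [Bool.or_self, eB_iff] at h
  rcases h with h | h | h | h <;> omega

theorem sL_irrefl (a : Lb) : sL a a = false := by
  rw [Bool.eq_false_iff]
  intro h
  unfold sL at h
  rw [Bool.or_self, sB_iff] at h
  rcases h with h | h | h <;> omega

/-- The sides. -/
def sides : List ℕ := [0, 1]

/-- The list of vertices. -/
def vs (φ : N3) : List Lb :=
  (sides ×ˢ List.range 4).map (fun p => ((0 : ℕ), p.1, p.2)) ++
  ((sides ×ˢ List.range (3 * φ.length)).map (fun p => ((1 : ℕ), p.1, p.2)) ++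
  (sides ×ˢ List.range (3 * φ.length)).map (fun p => ((2 : ℕ), p.1, p.2)))

/-- The number of a side. -/
def sd (s : Bool) : ℕ := if s then 1 else 0

theorem sd_inj {s s' : Bool} : sd s = sd s' ↔ s = s' := by
  cases s <;> cases s' <;> decide

/-- The label of a vertex. -/
def code {m : ℕ} : PV m → Lb
  | PV.h s j => (0, sd s, j)
  | PV.b s v => (1, sd s, v)
  | PV.o s q => (2, sd s, q)

theorem code_inj {m : ℕ} : Function.Injective (code (m := m)) := by
  intro x y h
  cases x <;> cases y <;> simp only [code, Prod.mk.injEq, sd_inj, true_and, reduceCtorEq,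
    OfNat.zero_ne_ofNat, OfNat.ofNat_ne_zero, OfNat.one_ne_ofNat, OfNat.ofNat_ne_one,
    zero_ne_one, one_ne_zero, false_and] at h
  · rw [h.1, Fin.ext h.2]
  · rw [h.1, Fin.ext h.2]
  · rw [h.1, Fin.ext h.2]

theorem mem_prod {α β : Type} {l : List α} {l' : List β} {a : α} {b : β} :
    (a, b) ∈ l ×ˢ l' ↔ a ∈ l ∧ b ∈ l' := List.pair_mem_product

theorem mem_sides {i : ℕ} : i ∈ sides ↔ ∃ s : Bool, sd s = i := by
  simp only [sides, List.mem_cons, List.not_mem_nil, or_false]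
  constructor
  · rintro (rfl | rfl)
    · exact ⟨false, rfl⟩
    · exact ⟨true, rfl⟩
  · rintro ⟨s, rfl⟩
    cases s
    · exact Or.inl rfl
    · exact Or.inr rfl

theorem mem_vs {φ : N3} (z : Lb) : z ∈ vs φ ↔ ∃ x : PV φ.length, code x = z := by
  unfold vs
  simp only [List.mem_append, List.mem_map, Prod.exists, mem_prod, List.mem_range, mem_sides]
  constructor
  · rintro (⟨i, j, ⟨⟨s, rfl⟩, hj⟩, rfl⟩ | ⟨i, j, ⟨⟨s, rfl⟩, hj⟩, rfl⟩ | ⟨i, j, ⟨⟨s, rfl⟩, hj⟩, rfl⟩)
    · exact ⟨PV.h s ⟨j, hj⟩, rfl⟩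
    · exact ⟨PV.b s ⟨j, hj⟩, rfl⟩
    · exact ⟨PV.o s ⟨j, hj⟩, rfl⟩
  · rintro ⟨x, rfl⟩
    cases x with
    | h s j => exact Or.inl ⟨_, _, ⟨⟨s, rfl⟩, j.2⟩, rfl⟩
    | b s j => exact Or.inr (Or.inl ⟨_, _, ⟨⟨s, rfl⟩, j.2⟩, rfl⟩)
    | o s j => exact Or.inr (Or.inr ⟨_, _, ⟨⟨s, rfl⟩, j.2⟩, rfl⟩)

theorem nodup_vs (φ : N3) : (vs φ).Nodup := by
  have hs : sides.Nodup := by decide
  have hP : ∀ n, (sides ×ˢ List.range n).Nodup := fun n => hs.product List.nodup_range
  have hin : ∀ k : ℕ, Function.Injective (fun p : ℕ × ℕ => ((k, p.1, p.2) : Lb)) := by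
    rintro k ⟨a, b⟩ ⟨c, d⟩ h
    simpa using h
  unfold vs
  refine List.Nodup.append ((hP _).map (hin 0)) (List.Nodup.append ((hP _).map (hin 1))
    ((hP _).map (hin 2)) ?_) ?_
  · intro z h1 h2
    obtain ⟨p, _, rfl⟩ := List.mem_map.1 h1
    obtain ⟨q, _, h⟩ := List.mem_map.1 h2
    simp at h
  · intro z h1 h2
    obtain ⟨p, _, rfl⟩ := List.mem_map.1 h1
    rcases List.mem_append.1 h2 with h2 | h2
    · obtain ⟨q, _, h⟩ := List.mem_map.1 h2
      simp at h
    · obtain ⟨q, _, h⟩ := List.mem_map.1 h2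
      simp at h

theorem sd_zero {s : Bool} : sd s = 0 ↔ s = false := by cases s <;> decide
theorem sd_one {s : Bool} : sd s = 1 ↔ s = true := by cases s <;> decide

theorem eL_code (φ : N3) (x y : PV φ.length) :
    eL φ (code x) (code y) = true ↔ (EG (m := φ.length) (varOf φ)).Adj x y := by
  have h : ∀ x y : PV φ.length, eB φ (code x) (code y) = true ↔ eD (varOf φ) x y := by
    intro x y
    rw [eB_iff]
    cases x <;> cases y <;> simp only [code, eD, sd_inj, sd_zero, sd_one, ne_eq] <;> simp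
  unfold eL EG
  simp only [Bool.or_eq_true, h]

theorem sL_code (φ : N3) (x y : PV φ.length) :
    sL (code x) (code y) = true ↔ (SG φ.length).Adj x y := by
  have h : ∀ x y : PV φ.length, sB (code x) (code y) = true ↔ sD x y := by
    intro x y
    rw [sB_iff]
    cases x <;> cases y <;> simp only [code, sD, sd_inj, ne_eq] <;> simp
  unfold sL SG
  simp only [Bool.or_eq_true, h]

/-- The instance. -/
def inst (φ : N3) : List (List Bool) × List (List Bool) :=
  ((vs φ).map (fun u => (vs φ).map (fun w => eL φ u w)),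
    (vs φ).map (fun u => (vs φ).map (fun w => sL u w)))

/-- Being a pairwise compatibility graph does not depend on the names of the vertices. -/
theorem isPCG_iso {V W : Type} (e : V ≃ W) {G : SimpleGraph V} {H : SimpleGraph W}
    (he : ∀ a b, H.Adj (e a) (e b) ↔ G.Adj a b) (h : IsPCG H) : IsPCG G := by
  obtain ⟨t, lo, hi, h1, h2, h3⟩ := h
  refine ⟨{ W := t.W, finite := t.finite, T := t.T, isTree := t.isTree, w := t.w, pos := t.pos
            leaf := t.leaf ∘ e
            leaf_injective := t.leaf_injective.comp e.injective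
            range_leaf := by rw [Set.range_comp, e.surjective.range_eq, Set.image_univ]
                             exact t.range_leaf }, lo, hi, h1, h2, ?_⟩
  intro u v huv
  rw [← he]
  exact h3 _ _ (fun h => huv (e.injective h))

theorem genPCG_iso {V W : Type} (e : V ≃ W) {G S : SimpleGraph V} {G' S' : SimpleGraph W}
    (hG : ∀ a b, G'.Adj (e a) (e b) ↔ G.Adj a b) (hS : ∀ a b, S'.Adj (e a) (e b) ↔ S.Adj a b)
    (h : GenPCG G' S') : GenPCG G S := by
  obtain ⟨H, h1, h2, h3⟩ := h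
  refine ⟨H.comap e, isPCG_iso e (fun a b => Iff.rfl) h1, ?_, ?_⟩
  · intro a b hab
    exact h2 ((hG a b).2 hab)
  · rw [disjoint_iff_inf_le]
    rintro a b ⟨ha, hb⟩
    exact (disjoint_iff_inf_le.1 h3) (show (H ⊓ S').Adj (e a) (e b) from ⟨ha, (hS a b).2 hb⟩)

theorem genPCG_adjMatrix {n : ℕ} (G S : SimpleGraph (Fin n)) :
    GenPCGProblem (adjMatrix G, adjMatrix S) ↔ GenPCG G S := by
  constructor
  · rintro ⟨n', G', S', h1, h2, h3, h4⟩
    have hn : n' = n := by
      have := congrArg List.length h1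
      rwa [length_adjMatrix, length_adjMatrix] at this
    subst hn
    rwa [adjMatrix_inj h1, adjMatrix_inj h2] at h4
  · intro h
    refine ⟨n, G, S, rfl, rfl, ?_, h⟩
    obtain ⟨H, h1, h2, h3⟩ := h
    intro a b hab
    rw [SimpleGraph.compl_adj]
    refine ⟨S.ne_of_adj hab, fun hG => ?_⟩
    exact (disjoint_iff_inf_le.1 h3) (show (H ⊓ S).Adj a b from ⟨h2 hG, hab⟩)

theorem varOf_lt {φ : N3} (hφ : BN φ) (q : ℕ) (hq : q < 3 * φ.length) :
    varOf φ q < 3 * φ.length := by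
  have h := hφ _ (tr_mem (φ := φ) (j := q / 3) (by omega))
  unfold varOf
  split_ifs
  · exact h.1
  · exact h.2.1
  · exact h.2.2

theorem varOf_0 (φ : N3) (k : ℕ) : varOf φ (3 * k) = (tr φ k).1 := by
  unfold varOf
  rw [if_pos (by omega), show 3 * k / 3 = k by omega]

theorem varOf_1 (φ : N3) (k : ℕ) : varOf φ (3 * k + 1) = (tr φ k).2.1 := by
  unfold varOf
  rw [if_neg (by omega), if_pos (by omega), show (3 * k + 1) / 3 = k by omega]

theorem varOf_2 (φ : N3) (k : ℕ) : varOf φ (3 * k + 2) = (tr φ k).2.2 := by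
  unfold varOf
  rw [if_neg (by omega), if_neg (by omega), show (3 * k + 2) / 3 = k by omega]

theorem inst_iff (φ : N3) (hφ : BN φ) : NAE3 φ ↔ GenPCGProblem (inst φ) := by
  obtain ⟨e, he⟩ := exists_equiv (vs φ) (nodup_vs φ) code code_inj mem_vs
  set G := listGraph (vs φ) (eL φ) (eL_symm _) (eL_irrefl _) with hG
  set S := listGraph (vs φ) sL sL_symm sL_irrefl with hS
  have hi : inst φ = (adjMatrix G, adjMatrix S) := by
    rw [hG, hS, adjMatrix_listGraph, adjMatrix_listGraph]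
    rfl
  have hGe : ∀ a b, (EG (m := φ.length) (varOf φ)).Adj (e a) (e b) ↔ G.Adj a b := by
    intro a b
    rw [← eL_code, he, he]
    rfl
  have hSe : ∀ a b, (SG φ.length).Adj (e a) (e b) ↔ S.Adj a b := by
    intro a b
    rw [← sL_code, he, he]
    rfl
  rw [hi, genPCG_adjMatrix, nae3_iff]
  have h0 : ∀ τ : ℕ → Bool, (∀ j < φ.length,
      ¬ (τ (tr φ j).1 = τ (tr φ j).2.1 ∧ τ (tr φ j).2.1 = τ (tr φ j).2.2)) ↔
      ∀ k < φ.length, ¬ (τ (varOf φ (3 * k)) = τ (varOf φ (3 * k + 1)) ∧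
        τ (varOf φ (3 * k + 1)) = τ (varOf φ (3 * k + 2))) := by
    intro τ
    simp only [varOf_0, varOf_1, varOf_2]
  constructor
  · rintro ⟨τ, hτ⟩
    exact genPCG_iso e hGe hSe (complete (varOf φ) τ ((h0 τ).1 hτ))
  · intro h
    have h' : GenPCG (EG (m := φ.length) (varOf φ)) (SG φ.length) := by
      refine genPCG_iso e.symm (fun a b => ?_) (fun a b => ?_) h
      · rw [← hGe, Equiv.apply_symm_apply, Equiv.apply_symm_apply]
      · rw [← hSe, Equiv.apply_symm_apply, Equiv.apply_symm_apply]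
    obtain ⟨τ, hτ⟩ := sound (varOf φ) (varOf_lt hφ) h'
    exact ⟨τ, (h0 τ).2 hτ⟩

theorem poly_varOf {α : Type} [TEnc α] {f : α → N3} {g : α → ℕ} (hf : Poly f) (hg : Poly g) :
    Poly (fun a => varOf (f a) (g a)) := by
  unfold varOf
  fun_prop

theorem poly_eB {α : Type} [TEnc α] {f : α → N3} {a b : α → Lb} (hf : Poly f)
    (ha : Poly a) (hb : Poly b) : Poly (fun x => eB (f x) (a x) (b x)) := by
  unfold eB
  have h1 : Poly (fun x => varOf (f x) (a x).2.2) := poly_varOf hf (by fun_prop)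
  fun_prop

theorem poly_vs : Poly vs := by
  unfold vs
  have h1 : Poly (fun φ : N3 => List.range (3 * φ.length)) :=
    UPoly.range ((UPoly.const 3).mul (UPoly.length Poly.id))
  have h2 : Poly (fun _ : N3 => sides) := Poly.const _
  have h3 : Poly (fun _ : N3 => List.range 4) := Poly.const _
  exact Poly.append (Poly.map (F := fun _ (p : ℕ × ℕ) => ((0 : ℕ), p.1, p.2))
    (poly_product h2 h3) (by fun_prop)) (Poly.append
    (Poly.map (F := fun _ (p : ℕ × ℕ) => ((1 : ℕ), p.1, p.2)) (poly_product h2 h1) (by fun_prop))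
    (Poly.map (F := fun _ (p : ℕ × ℕ) => ((2 : ℕ), p.1, p.2)) (poly_product h2 h1) (by fun_prop)))

theorem poly_inst : Poly inst := by
  have hv := poly_vs
  unfold inst
  refine Poly.pair ?_ ?_
  · refine Poly.map (l := vs) (F := fun φ u => (vs φ).map (fun w => eL φ u w)) hv ?_
    refine Poly.map (l := fun p : N3 × Lb => vs p.1)
      (F := fun p w => eL p.1 p.2 w) (hv.comp (Poly.fst Poly.id)) ?_
    unfold eL
    exact Poly.or (poly_eB (by fun_prop) (by fun_prop) (by fun_prop))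
      (poly_eB (by fun_prop) (by fun_prop) (by fun_prop))
  · refine Poly.map (l := vs) (F := fun φ u => (vs φ).map (fun w => sL u w)) hv ?_
    refine Poly.map (l := fun p : N3 × Lb => vs p.1)
      (F := fun p w => sL p.2 w) (hv.comp (Poly.fst Poly.id)) ?_
    unfold sL sB
    fun_prop

theorem hard_genPCG : NPHardP GenPCGProblem :=
  ((hardPr_NAE3.trans (Pr' := fun _ => True) poly_inst (fun _ _ => trivial)
    (fun φ hφ => inst_iff φ hφ)).toHardI).toNPHardP

end Pool.Agent.NPC.K1H72PCG
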